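import Pool.Agent.helper57.LQ.SpecC

/-!
# Row lq:SQ6: the squaring lemma at level 6
-/

set_option autoImplicit false

open Finset PowerSeries

noncomputable section

namespace Pool.Agent.LQ

/-! ### Polynomials in `uu` of bounded degree -/

/-- `f` is the value at `uu` of a polynomial of degree at most `d` -/
def SQ6_S (d : ℕ) (f : FF) : Prop :=
  ∃ F : Polynomial (ZMod 2), F.natDegree ≤ d ∧ Polynomial.aeval uu F = f

theorem SQ6_mono {d e : ℕ} {f : FF} (h : d ≤ e) (hf : SQ6_S d f) : SQ6_S e f := by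
  obtain ⟨F, h1, h2⟩ := hf
  exact ⟨F, h1.trans h, h2⟩

theorem SQ6_zero (d : ℕ) : SQ6_S d 0 := ⟨0, by simp, by simp⟩

theorem SQ6_add {d : ℕ} {f g : FF} (hf : SQ6_S d f) (hg : SQ6_S d g) : SQ6_S d (f + g) := by
  obtain ⟨F, h1, h2⟩ := hf
  obtain ⟨G, h3, h4⟩ := hg
  exact ⟨F + G, Polynomial.natDegree_add_le_of_degree_le h1 h3, by rw [map_add, h2, h4]⟩

theorem SQ6_mul {d e : ℕ} {f g : FF} (hf : SQ6_S d f) (hg : SQ6_S e g) : SQ6_S (d + e) (f * g) := by
  obtain ⟨F, h1, h2⟩ := hf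
  obtain ⟨G, h3, h4⟩ := hg
  exact ⟨F * G, Polynomial.natDegree_mul_le_of_le h1 h3, by rw [map_mul, h2, h4]⟩

theorem SQ6_pow {d : ℕ} {f : FF} (k : ℕ) (hf : SQ6_S d f) : SQ6_S (k * d) (f ^ k) := by
  obtain ⟨F, h1, h2⟩ := hf
  exact ⟨F ^ k, Polynomial.natDegree_pow_le_of_le k h1, by rw [map_pow, h2]⟩

theorem SQ6_smul {d : ℕ} {f : FF} (c : ZMod 2) (hf : SQ6_S d f) : SQ6_S d (c • f) := by
  obtain ⟨F, h1, h2⟩ := hf
  exact ⟨c • F, (Polynomial.natDegree_smul_le c F).trans h1, by rw [map_smul, h2]⟩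

theorem SQ6_sum {d : ℕ} (s : Finset ℕ) (f : ℕ → FF) (h : ∀ i ∈ s, SQ6_S d (f i)) :
    SQ6_S d (∑ i ∈ s, f i) := by
  classical
  induction s using Finset.induction_on with
  | empty => simpa using SQ6_zero d
  | insert a s ha ih =>
    rw [Finset.sum_insert ha]
    exact SQ6_add (h a (Finset.mem_insert_self a s)) (ih fun i hi => h i (Finset.mem_insert_of_mem hi))

theorem SQ6_tt (hUID : UID_stmt) : SQ6_S 4 tt := by
  refine ⟨Polynomial.X + Polynomial.X ^ 4, by compute_degree, ?_⟩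
  rw [map_add, map_pow, Polynomial.aeval_X]
  exact hUID.1.symm

/-- evaluation of a polynomial at `g`, where the powers of `g` are known -/
theorem SQ6_aeval {d : ℕ} (F : Polynomial (ZMod 2)) (g : FF)
    (h : ∀ i, F.coeff i ≠ 0 → SQ6_S d (g ^ i)) : SQ6_S d (Polynomial.aeval g F) := by
  rw [Polynomial.aeval_eq_sum_range]
  refine SQ6_sum _ _ fun i _ => ?_
  by_cases hi : F.coeff i = 0
  · rw [hi, zero_smul]
    exact SQ6_zero d
  · exact SQ6_smul _ (h i hi)

/-! ### Injectivity -/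

theorem SQ6_uu0 : constantCoeff uu = 0 := by
  classical
  rw [← coeff_zero_eq_constantCoeff_apply]
  unfold uu
  rw [coeff_mk, if_neg]
  rintro ⟨m, hm, h⟩
  have : m = 0 := by
    rcases Nat.eq_zero_or_pos m with h0 | h0
    · exact h0
    · have : 0 < m ^ 2 := by positivity
      omega
  subst this
  exact hm (dvd_zero 3)

theorem SQ6_uune : uu ≠ 0 := by
  classical
  intro h
  have h1 : coeff 1 uu = 1 := by
    unfold uu
    rw [coeff_mk, if_pos]
    exact ⟨1, by norm_num, by norm_num⟩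
  rw [h, map_zero] at h1
  exact zero_ne_one h1

theorem SQ6_cc (F : Polynomial (ZMod 2)) : constantCoeff (Polynomial.aeval uu F) = F.coeff 0 := by
  have h : Polynomial.aeval uu F = Polynomial.eval₂ (algebraMap (ZMod 2) FF) uu F := rfl
  rw [h, Polynomial.hom_eval₂, SQ6_uu0]
  have h2 : (constantCoeff : FF →+* ZMod 2).comp (algebraMap (ZMod 2) FF) = RingHom.id (ZMod 2) :=
    Subsingleton.elim _ _
  rw [h2, Polynomial.eval₂_id, ← Polynomial.coeff_zero_eq_eval_zero]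

theorem SQ6_inj0 (n : ℕ) : ∀ F : Polynomial (ZMod 2), F.natDegree < n → Polynomial.aeval uu F = 0 →
    F = 0 := by
  induction n with
  | zero => intro F h; omega
  | succ n ih =>
    intro F hn hF
    have h0 : F.coeff 0 = 0 := by rw [← SQ6_cc, hF, map_zero]
    obtain ⟨G, hG⟩ := Polynomial.X_dvd_iff.2 h0
    have hG0 : Polynomial.aeval uu G = 0 := by
      rw [hG, map_mul, Polynomial.aeval_X] at hF
      rcases mul_eq_zero.1 hF with h | h
      · exact absurd h SQ6_uune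
      · exact h
    by_cases hGz : G = 0
    · rw [hG, hGz, mul_zero]
    · have hd : F.natDegree = G.natDegree + 1 := by
        rw [hG, Polynomial.natDegree_X_mul hGz]
      exact absurd (ih G (by omega) hG0) hGz

theorem SQ6_inj (F G : Polynomial (ZMod 2)) (h : Polynomial.aeval uu F = Polynomial.aeval uu G) :
    F = G := by
  have h1 : Polynomial.aeval uu (F - G) = 0 := by rw [map_sub, h, sub_self]
  exact sub_eq_zero.1 (SQ6_inj0 _ (F - G) (Nat.lt_succ_self _) h1)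

/-! ### The part prime to 3 -/

theorem SQ6_cP3 (n : ℕ) (f : FF) : coeff n (P3 f) = if 3 ∣ n then 0 else coeff n f := by
  unfold P3
  rw [coeff_mk]

theorem SQ6_cex (p n : ℕ) (f : FF) : coeff n (ex p f) = if p ∣ n then coeff (n / p) f else 0 := by
  unfold ex
  rw [coeff_mk]

theorem SQ6_P3s (c : ZMod 2) (f : FF) : P3 (c • f) = c • P3 f := by
  ext n
  rw [SQ6_cP3, map_smul, map_smul, SQ6_cP3]
  split_ifs
  · rw [smul_zero]
  · rfl

theorem SQ6_P3z : P3 0 = 0 := by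
  ext n
  rw [SQ6_cP3, map_zero]
  split_ifs <;> rfl

theorem SQ6_P3sum (hP3D : P3D_stmt) (s : Finset ℕ) (f : ℕ → FF) :
    P3 (∑ i ∈ s, f i) = ∑ i ∈ s, P3 (f i) := by
  classical
  induction s using Finset.induction_on with
  | empty => simpa using SQ6_P3z
  | insert a s ha ih => rw [Finset.sum_insert ha, hP3D.2.1, ih, Finset.sum_insert ha]

theorem SQ6_P3a (hP3D : P3D_stmt) {d : ℕ} (F : Polynomial (ZMod 2)) (g : FF)
    (h : ∀ i, F.coeff i ≠ 0 → SQ6_S d (P3 (g ^ i))) : SQ6_S d (P3 (Polynomial.aeval g F)) := by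
  rw [Polynomial.aeval_eq_sum_range, SQ6_P3sum hP3D]
  refine SQ6_sum _ _ fun i _ => ?_
  rw [SQ6_P3s]
  by_cases hi : F.coeff i = 0
  · rw [hi, zero_smul]
    exact SQ6_zero d
  · exact SQ6_smul _ (h i hi)

theorem SQ6_exa (p : ℕ) (hp : p ≠ 0) (F : Polynomial (ZMod 2)) (g : FF) :
    ex p (Polynomial.aeval g F) = Polynomial.aeval (ex p g) F := by
  rw [ex_eq hp, ex_eq hp]
  exact (Polynomial.aeval_algHom_apply (PowerSeries.expand p hp) g F).symm

theorem SQ6_mulne {n : ℕ} {f g : FF} (h : coeff n (f * g) ≠ 0) :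
    ∃ x y : ℕ, x + y = n ∧ coeff x f ≠ 0 ∧ coeff y g ≠ 0 := by
  rw [coeff_mul] at h
  obtain ⟨p, hp, h1⟩ := Finset.exists_ne_zero_of_sum_ne_zero h
  exact ⟨p.1, p.2, HasAntidiagonal.mem_antidiagonal.1 hp, left_ne_zero_of_mul h1, right_ne_zero_of_mul h1⟩

/-- multiplication by a series in `x^3` -/
theorem SQ6_m1 {n p : ℕ} (hn : ¬ 3 ∣ n) (hp : 3 ∣ p) (f g : FF) :
    coeff n (ex p f * g) = coeff n (ex p f * P3 g) := by
  rw [coeff_mul, coeff_mul]
  refine Finset.sum_congr rfl fun z hz => ?_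
  have hz' := HasAntidiagonal.mem_antidiagonal.1 hz
  rw [SQ6_cex, SQ6_cP3]
  by_cases h : p ∣ z.1
  · have h3 : 3 ∣ z.1 := hp.trans h
    have h4 : ¬ 3 ∣ z.2 := by
      intro h4
      exact hn (hz' ▸ dvd_add h3 h4)
    rw [if_neg h4]
  · rw [if_neg h, zero_mul, zero_mul]

theorem SQ6_m2 {n p q : ℕ} (hn : ¬ 3 ∣ n) (hp : 3 ∣ p) (f g : FF) :
    coeff n (ex q g * ex p f) = coeff n (ex q (P3 g) * ex p f) := by
  rw [coeff_mul, coeff_mul]
  refine Finset.sum_congr rfl fun z hz => ?_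
  have hz' := HasAntidiagonal.mem_antidiagonal.1 hz
  rw [SQ6_cex, SQ6_cex, SQ6_cex, SQ6_cP3]
  by_cases h : p ∣ z.2
  · have h3 : 3 ∣ z.2 := hp.trans h
    have h4 : ¬ 3 ∣ z.1 := by
      intro h4
      exact hn (hz' ▸ dvd_add h4 h3)
    by_cases h5 : q ∣ z.1
    · have h6 : ¬ 3 ∣ z.1 / q := by
        intro h6
        apply h4
        have := Nat.div_mul_cancel h5
        rw [← this]
        exact Dvd.dvd.mul_right h6 q
      rw [if_neg h6]
    · rw [if_neg h5, if_neg h5]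
  · rw [if_neg h, mul_zero, mul_zero]

theorem SQ6_cop {n : ℕ} (h2 : ¬ 2 ∣ n) (h3 : ¬ 3 ∣ n) : n.Coprime 6 := by
  have e : (6 : ℕ) = 2 * 3 := rfl
  rw [e]
  exact Nat.Coprime.mul_right ((Nat.Prime.coprime_iff_not_dvd Nat.prime_two).2 h2).symm
    ((Nat.Prime.coprime_iff_not_dvd Nat.prime_three).2 h3).symm

theorem SQ6_cop' {n : ℕ} (h : n.Coprime 6) : ¬ 2 ∣ n ∧ ¬ 3 ∣ n := by
  constructor
  · intro h2
    have := Nat.dvd_gcd h2 (by norm_num : 2 ∣ 6)
    rw [h] at this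
    omega
  · intro h3
    have := Nat.dvd_gcd h3 (by norm_num : 3 ∣ 6)
    rw [h] at this
    omega

/-! ### The top degree of a sum of powers -/

theorem SQ6_top (J : Finset ℕ) (d : ℕ)
    (h : (∑ j ∈ J, (Polynomial.X + Polynomial.X ^ 4 : Polynomial (ZMod 2)) ^ j).natDegree ≤ d) :
    ∀ j ∈ J, 4 * j ≤ d := by
  rcases J.eq_empty_or_nonempty with h0 | h0
  · intro j hj
    rw [h0] at hj
    exact absurd hj (Finset.notMem_empty j)
  · have hM : (Polynomial.X + Polynomial.X ^ 4 : Polynomial (ZMod 2)).natDegree = 4 := by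
      compute_degree!
    have hmon : (Polynomial.X + Polynomial.X ^ 4 : Polynomial (ZMod 2)).Monic := by
      monicity!
    have hdeg : ∀ j, ((Polynomial.X + Polynomial.X ^ 4 : Polynomial (ZMod 2)) ^ j).natDegree = j * 4 := by
      intro j
      rw [hmon.natDegree_pow, hM]
    set M := J.max' h0
    have hc : (∑ j ∈ J, (Polynomial.X + Polynomial.X ^ 4 : Polynomial (ZMod 2)) ^ j).coeff (M * 4) = 1 := by
      rw [Polynomial.finsetSum_coeff, Finset.sum_eq_single M]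
      · have h1 := (hmon.pow M).coeff_natDegree
        rw [hdeg] at h1
        exact h1
      · intro j hj hne
        apply Polynomial.coeff_eq_zero_of_natDegree_lt
        rw [hdeg]
        have h1 := J.le_max' j hj
        have h2 : j < M := lt_of_le_of_ne h1 hne
        omega
      · intro hn
        exact absurd (J.max'_mem h0) hn
    have h4 : M * 4 ≤ d := by
      refine le_trans (Polynomial.le_natDegree_of_ne_zero ?_) h
      rw [hc]
      exact one_ne_zero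
    intro j hj
    have := J.le_max' j hj
    omega

/-! ### The main proof -/

theorem SQ6 (hBDA : BDA_stmt) (hSEL6 : SEL6_stmt) (hKSB : KSB_stmt) (hPS1 : PS1_stmt) (hUID : UID_stmt)
    (hP3D : P3D_stmt) (hGN6 : GN6_stmt) (hPSV : PSV_stmt) (hGRD : GRD_stmt)
    (hTGR : TGR_stmt) (hEXP : EXP_stmt) : SQ6_stmt := by
  intro m
  unfold SqL
  have e24 : 1 + 4 * (6 * m) = 1 + 24 * m := by ring
  rw [e24]
  rcases Nat.eq_zero_or_pos m with hm0 | hm
  · subst hm0
    simp only [mul_zero, add_zero, pow_one]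
    rw [hPS1.2.1, add_self_FF]
    exact Submodule.zero_mem _
  obtain ⟨s, m0, hodd, rfl⟩ := Nat.exists_eq_two_pow_mul_odd hm.ne'
  obtain ⟨A, hA⟩ := hBDA m0 hodd
  have hA' := hA
  obtain ⟨A1, A2, -⟩ := hA
  obtain ⟨x1, x2, x3, -, -, -⟩ := hEXP
  obtain ⟨-, -, g3, -, g5, -⟩ := hTGR
  have hm0 : 1 ≤ m0 := hodd.pos
  have hq : 1 ≤ 2 ^ s := Nat.one_le_two_pow
  set q := 2 ^ s with hqdef
  let a : ℕ → FF := fun j => Polynomial.aeval DD (A j)
  let T1 : ℕ → FF := fun j => ex (6 * q) (a j) * P3 (DD ^ j)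
  let T2 : ℕ → FF := fun j => ex (2 * q) (P3 (a j)) * ex 3 (DD ^ j)
  have haz : ∀ j, A j = 0 → a j = 0 := fun j h => by
    change Polynomial.aeval DD (A j) = 0
    rw [h, map_zero]
  have hexz : ∀ p, ex p (0 : FF) = 0 := fun p => by
    ext n
    rw [SQ6_cex, map_zero]
    split_ifs <;> rfl
  have hT1z : ∀ j, A j = 0 → T1 j = 0 := fun j h => by
    change ex (6 * q) (a j) * P3 (DD ^ j) = 0
    rw [haz j h, hexz, zero_mul]
  have hT2z : ∀ j, A j = 0 → T2 j = 0 := fun j h => by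
    change ex (2 * q) (P3 (a j)) * ex 3 (DD ^ j) = 0
    rw [haz j h, SQ6_P3z, hexz, zero_mul]
  have hAne : ∀ j, A j ≠ 0 → Odd j ∧ j ≤ m0 := by
    intro j h
    obtain ⟨i, hi⟩ : ∃ i, (A j).coeff i ≠ 0 := by
      by_contra hcon
      push Not at hcon
      exact h (Polynomial.ext fun i => by rw [hcon i, Polynomial.coeff_zero])
    obtain ⟨h1, h2, h3⟩ := A1 j i hi
    have := h1.pos
    exact ⟨h2, by omega⟩
  have hDDodd : ∀ j y, Odd j → coeff y (DD ^ j) ≠ 0 → ¬ 2 ∣ y := by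
    intro j y hj h
    have h1 := g5 j y h
    obtain ⟨t, ht⟩ := hj
    omega
  -- exponents of the two kinds of terms
  have hT1e : ∀ j n, coeff n (T1 j) ≠ 0 → n.Coprime 6 := by
    intro j n h
    by_cases hj : A j = 0
    · rw [hT1z j hj, map_zero] at h
      exact absurd rfl h
    obtain ⟨x, y, hxy, hx, hy⟩ := SQ6_mulne h
    rw [SQ6_cex] at hx
    rw [SQ6_cP3] at hy
    by_cases h6 : 6 * q ∣ x
    · by_cases h3 : 3 ∣ y
      · rw [if_pos h3] at hy
        exact absurd rfl hy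
      · rw [if_neg h3] at hy
        have h2 := hDDodd j y (hAne j hj).1 hy
        have h6' : 6 ∣ x := (Dvd.intro q rfl).trans h6
        exact SQ6_cop (by omega) (by omega)
    · rw [if_neg h6] at hx
      exact absurd rfl hx
  have hT2e : ∀ j n, coeff n (T2 j) ≠ 0 → n.Coprime 6 := by
    intro j n h
    by_cases hj : A j = 0
    · rw [hT2z j hj, map_zero] at h
      exact absurd rfl h
    obtain ⟨x, y, hxy, hx, hy⟩ := SQ6_mulne h
    rw [SQ6_cex] at hx hy
    by_cases h2 : 2 * q ∣ x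
    · rw [if_pos h2, SQ6_cP3] at hx
      by_cases h3 : 3 ∣ x / (2 * q)
      · rw [if_pos h3] at hx
        exact absurd rfl hx
      · by_cases h4 : 3 ∣ y
        · rw [if_pos h4] at hy
          have h5 := hDDodd j (y / 3) (hAne j hj).1 hy
          have h2' : 2 ∣ x := (Dvd.intro q rfl).trans h2
          have h6 : ¬ 3 ∣ x := by
            intro h6
            rw [← Nat.div_mul_cancel h2] at h6
            rcases (Nat.Prime.dvd_mul Nat.prime_three).1 h6 with h7 | h7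
            · exact h3 h7
            · rcases (Nat.Prime.dvd_mul Nat.prime_three).1 h7 with h8 | h8
              · omega
              · rw [hqdef] at h8
                have := Nat.Prime.dvd_of_dvd_pow Nat.prime_three h8
                omega
          exact SQ6_cop (by omega) (by omega)
        · rw [if_neg h4] at hy
          exact absurd rfl hy
    · rw [if_neg h2] at hx
      exact absurd rfl hx
  -- the value of `Psi`
  have hPsi : Psi 6 (tt ^ (1 + 24 * (q * m0))) =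
      ∑ j ∈ range (m0 + 1), T1 j + ∑ j ∈ range (m0 + 1), T2 j := by
    ext n
    by_cases hn : n.Coprime 6
    · obtain ⟨n2, n3⟩ := SQ6_cop' hn
      have hno : Odd n := Nat.not_even_iff_odd.1 fun h => n2 h.two_dvd
      have hm1 : 1 ≤ q * m0 := hm
      rw [hSEL6 (q * m0) hm1 n hn, hqdef,
        hKSB m0 A hodd hA' s 6 1 n (by norm_num) (by decide) (by decide) hno,
        hKSB m0 A hodd hA' s 2 3 n (by norm_num) (by decide) (by decide) hno,
        map_add, map_sum, map_sum, map_sum, map_sum, ← hqdef]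
      congr 1
      · refine Finset.sum_congr rfl fun j _ => ?_
        have h1 : ex 1 (DD ^ j) = DD ^ j := by
          ext k
          rw [SQ6_cex, if_pos (one_dvd k), Nat.div_one]
        rw [h1]
        exact SQ6_m1 n3 ⟨2 * q, by ring⟩ _ _
      · refine Finset.sum_congr rfl fun j _ => ?_
        exact SQ6_m2 n3 dvd_rfl _ _
    · rw [coeff_Psi, if_neg hn, map_add, map_sum, map_sum, Finset.sum_eq_zero, Finset.sum_eq_zero,
        add_zero]
      · intro j _
        by_contra h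
        exact hn (hT2e j n h)
      · intro j _
        by_contra h
        exact hn (hT1e j n h)
  -- the degrees
  have hUtt := SQ6_tt hUID
  have hq2 : 2 ^ (s + 1) = 2 * q := by rw [hqdef, pow_succ]; ring
  have e6 : ∀ f, ex (6 * q) f = ex 3 f ^ (2 ^ (s + 1)) := fun f => by
    rw [x3, x2 _ _ _ (by positivity) (by norm_num), hq2]
    congr 1
    ring
  have e2 : ∀ f, ex (2 * q) f = f ^ (2 ^ (s + 1)) := fun f => by
    rw [x3, hq2]
  have hS1 : ∀ j, A j ≠ 0 → SQ6_S (12 * (m0 + 1 - j)) (ex 3 (a j)) := by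
    intro j _
    change SQ6_S _ (ex 3 (Polynomial.aeval DD (A j)))
    rw [SQ6_exa 3 (by norm_num), g3]
    refine SQ6_aeval _ _ fun i hi => ?_
    obtain ⟨h1, h2, h3⟩ := A1 j i hi
    exact SQ6_mono (by omega) (SQ6_pow i (SQ6_pow 3 hUtt))
  have hS2 : ∀ i, 1 ≤ i → SQ6_S (12 * i - 8) (P3 (DD ^ i)) := fun i hi => hP3D.2.2 i hi
  have hS3 : ∀ j, A j ≠ 0 → SQ6_S (12 * (m0 + 1 - j) - 8) (P3 (a j)) := by
    intro j _
    refine SQ6_P3a hP3D _ _ fun i hi => ?_
    obtain ⟨h1, h2, h3⟩ := A1 j i hi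
    exact SQ6_mono (by omega) (hS2 i h1.pos)
  have hS4 : ∀ j, SQ6_S (12 * j) (ex 3 (DD ^ j)) := by
    intro j
    rw [(x1 3 DD DD (by norm_num)).2.2.2 j, g3]
    exact SQ6_mono (by omega) (SQ6_pow j (SQ6_pow 3 hUtt))
  have hT11 : T1 1 = tt ^ (1 + 6 * (q * m0)) := by
    change ex (6 * q) (Polynomial.aeval DD (A 1)) * P3 (DD ^ 1) = _
    rw [A2, map_pow, Polynomial.aeval_X, pow_one, hP3D.1, e6, (x1 3 DD DD (by norm_num)).2.2.2 m0,
      g3, hq2, ← pow_mul, ← pow_mul, ← pow_succ]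
    congr 1
    ring
  have hD1 : ∀ j ∈ (range (m0 + 1)).erase 1, SQ6_S (24 * (q * m0) - 4) (T1 j) := by
    intro j hj
    by_cases h0 : A j = 0
    · rw [hT1z j h0]
      exact SQ6_zero _
    obtain ⟨h1, h2⟩ := hAne j h0
    have hj1 : j ≠ 1 := (Finset.mem_erase.1 hj).1
    have hj3 : 3 ≤ j := by
      obtain ⟨t, ht⟩ := h1
      omega
    change SQ6_S _ (ex (6 * q) (a j) * P3 (DD ^ j))
    rw [e6]
    refine SQ6_mono ?_ (SQ6_mul (SQ6_pow _ (hS1 j h0)) (hS2 j (by omega)))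
    obtain ⟨t, rfl⟩ : ∃ t, j = t + 1 := ⟨j - 1, by omega⟩
    obtain ⟨r, rfl⟩ : ∃ r, m0 = r + t := ⟨m0 - t, by omega⟩
    have e : r + t + 1 - (t + 1) = r := by omega
    rw [e, hq2]
    have ht : 2 ≤ t := by omega
    have h5 : t ≤ q * t := Nat.le_mul_of_pos_left t hq
    have h6 : 2 * q * (12 * r) + 24 * (q * t) = 24 * (q * (r + t)) := by ring
    omega
  have hD2 : ∀ j ∈ range (m0 + 1), SQ6_S (24 * (q * m0) - 4) (T2 j) := by
    intro j hj
    by_cases h0 : A j = 0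
    · rw [hT2z j h0]
      exact SQ6_zero _
    obtain ⟨h1, h2⟩ := hAne j h0
    have hj1 : 1 ≤ j := h1.pos
    change SQ6_S _ (ex (2 * q) (P3 (a j)) * ex 3 (DD ^ j))
    rw [e2]
    refine SQ6_mono ?_ (SQ6_mul (SQ6_pow _ (hS3 j h0)) (hS4 j))
    obtain ⟨t, rfl⟩ : ∃ t, j = t + 1 := ⟨j - 1, by omega⟩
    obtain ⟨r, rfl⟩ : ∃ r, m0 = r + (t + 1) := ⟨m0 - (t + 1), by omega⟩
    have e : r + (t + 1) + 1 - (t + 1) = r + 1 := by omega
    have e' : 12 * (r + 1) - 8 = 12 * r + 4 := by omega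
    rw [e, hq2, e']
    have h5 : t ≤ q * t := Nat.le_mul_of_pos_left t hq
    have h6 : 2 * q * (12 * r + 4) + 24 * (q * t) + 16 * q = 24 * (q * (r + (t + 1))) := by ring
    omega
  have hR : SQ6_S (24 * (q * m0) - 4) (∑ j ∈ range (m0 + 1), T1 j + ∑ j ∈ range (m0 + 1), T2 j +
      tt ^ (1 + 6 * (q * m0))) := by
    rw [← Finset.add_sum_erase (range (m0 + 1)) T1 (Finset.mem_range.2 (by omega : 1 < m0 + 1)), hT11]
    have h : tt ^ (1 + 6 * (q * m0)) + ∑ j ∈ (range (m0 + 1)).erase 1, T1 j +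
        ∑ j ∈ range (m0 + 1), T2 j + tt ^ (1 + 6 * (q * m0)) =
        (tt ^ (1 + 6 * (q * m0)) + tt ^ (1 + 6 * (q * m0))) +
        (∑ j ∈ (range (m0 + 1)).erase 1, T1 j + ∑ j ∈ range (m0 + 1), T2 j) := by ring
    rw [h, add_self_FF, zero_add]
    exact SQ6_add (SQ6_sum _ _ hD1) (SQ6_sum _ _ hD2)
  -- the conclusion
  have hc24 : (1 + 24 * (q * m0)).Coprime 6 := SQ6_cop (by omega) (by omega)
  have hc6 : (1 + 6 * (q * m0)).Coprime 6 := SQ6_cop (by omega) (by omega)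
  have hg : tt ^ (1 + 24 * (q * m0)) ∈ VV 6 tt (2 + 24 * (q * m0)) :=
    Submodule.subset_span ⟨1 + 24 * (q * m0), by omega, hc24, rfl⟩
  have hg' : tt ^ (1 + 6 * (q * m0)) ∈ VV 6 tt (2 + 24 * (q * m0)) :=
    Submodule.subset_span ⟨1 + 6 * (q * m0), by omega, hc6, rfl⟩
  have hR2 : Psi 6 (tt ^ (1 + 24 * (q * m0))) + tt ^ (1 + 6 * (q * m0)) ∈
      VV 6 tt (2 + 24 * (q * m0)) := Submodule.add_mem _ (hPSV 6 tt hGN6 _ _ hg) hg'
  obtain ⟨J, hJ1, hJ2⟩ := hGRD.2.2 (fun i => i < 2 + 24 * (q * m0) ∧ i.Coprime 6) tt _ (by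
    refine Submodule.span_mono ?_ hR2
    rintro f ⟨i, hi, hc, rfl⟩
    exact ⟨i, ⟨hi, hc⟩, rfl⟩)
  obtain ⟨Q, hQ1, hQ2⟩ := hR
  have hQ : Q = ∑ j ∈ J, (Polynomial.X + Polynomial.X ^ 4 : Polynomial (ZMod 2)) ^ j := by
    apply SQ6_inj
    rw [hQ2, ← hPsi, hJ2, map_sum]
    refine Finset.sum_congr rfl fun j _ => ?_
    rw [map_pow, map_add, map_pow, Polynomial.aeval_X, ← hUID.1]
  rw [hQ] at hQ1
  have hJ3 := SQ6_top J _ hQ1
  rw [hJ2]
  refine Submodule.sum_mem _ fun j hj => Submodule.subset_span ⟨j, ?_, (hJ1 j hj).2, rfl⟩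
  have := hJ3 j hj
  omega

end Pool.Agent.LQ
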